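import Pool.Agent.H10.Rec4

namespace Pool.Agent.Results.MP_7faad7_pr.Index
open MeasureTheory Pool.Agent.H10.Rec

/-- The pair `(G, μ)` is algebraically recurrent. -/
def ARPair {G : Type} [Group G] (μ : PMF G) : Prop :=
  letI : MeasurableSpace G := ⊤
  ∀ n ≥ 1, ∀ᵐ ω ∂(Measure.infinitePi fun _ : ℕ => μ.toMeasure), Subsemigroup.closure
    (Set.range fun k : ℕ => ((List.range (n + k)).map ω).prod) = ⊤

/-- The group `G` is algebraically recurrent. -/
def AR (G : Type) [Group G] : Prop :=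
  ∀ μ : PMF G, (∀ g, μ g⁻¹ = μ g) → Subgroup.closure μ.support = ⊤ → ARPair μ

/-- Algebraic recurrence does not pass to subgroups of finite index. -/
theorem result : ∃ (G : Type) (_ : Group G) (H : Subgroup G),
    Countable G ∧ H.FiniteIndex ∧ AR G ∧ ¬ AR H := by
  let _ : MeasurableSpace D := ⊤
  have : DiscreteMeasurableSpace D := ⟨fun _ => trivial⟩
  let _ : MeasurableSpace (Multiplicative (ℤ →₀ ℤ)) := ⊤
  have : DiscreteMeasurableSpace (Multiplicative (ℤ →₀ ℤ)) := ⟨fun _ => trivial⟩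
  have : Countable (Multiplicative (ℤ →₀ ℤ)) := inferInstanceAs (Countable (ℤ →₀ ℤ))
  obtain ⟨μ, h1, h2, h3⟩ := @tr _ sg.ker _ _ _ _ _ ⊤ (@DiscreteMeasurableSpace.mk _ ⊤
    fun _ => trivial) iso sumZ
  exact ⟨D, inferInstance, sg.ker, inferInstance, inferInstance, fun μ _ h n _ => dih μ h n,
    fun h => h3 (h μ h1 h2 1 le_rfl)⟩

end Pool.Agent.Results.MP_7faad7_pr.Index
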